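import Pool.Agent.H525.EX.Stm2

/-! EX/GA (for helper525): the reflection equations for the global arrays. -/

set_option autoImplicit false

namespace Pool.Agent.H350.EX

open Polynomial UniqueFactorizationMonoid
open Pool.Agent.H985.Chow (mob)
open Pool.Agent.H525.QF Pool.Agent.H525.EX
open scoped Classical

variable {K : Type} [Field K] [Fintype K]

theorem F_cII (m : ℕ) (v : K[X] × K[X]) (hx : v.1 ∈ mon K m) (hy : v.2 ∈ lt K m) :
    (F v).Monic ∧ (F v).natDegree = 4 * m := by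
  rw [mem_mon] at hx
  rw [mem_lt] at hy
  obtain ⟨hm, hd⟩ := hx
  have h4 : (v.1 ^ 4).Monic := hm.pow 4
  have hd4 : (v.1 ^ 4).natDegree = 4 * m := by rw [hm.natDegree_pow, hd]
  have hlt : (X * v.2 ^ 4).degree < (v.1 ^ 4).degree := by
    rw [degree_eq_natDegree h4.ne_zero, hd4]
    by_cases h0 : v.2 = 0
    · rw [h0, zero_pow (by norm_num), mul_zero, degree_zero]
      exact WithBot.bot_lt_coe _
    · rw [degree_eq_natDegree h0] at hy
      have hy' : v.2.natDegree < m := by exact_mod_cast hy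
      have h1 : (X * v.2 ^ 4) ≠ 0 := mul_ne_zero X_ne_zero (pow_ne_zero 4 h0)
      rw [degree_eq_natDegree h1, natDegree_mul X_ne_zero (pow_ne_zero 4 h0), natDegree_X,
        natDegree_pow]
      have : 1 + 4 * v.2.natDegree < 4 * m := by omega
      exact_mod_cast this
  unfold F
  refine ⟨h4.add_of_left hlt, ?_⟩
  rw [natDegree_add_eq_left_of_degree_lt hlt, hd4]

theorem F_cI (m : ℕ) (v : K[X] × K[X]) (hx : v.1 ∈ lt K (m + 1)) (hy : v.2 ∈ mon K m) :
    (F v).Monic ∧ (F v).natDegree = 4 * m + 1 := by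
  rw [mem_mon] at hy
  rw [mem_lt] at hx
  obtain ⟨hm, hd⟩ := hy
  have h4 : (X * v.2 ^ 4).Monic := monic_X.mul (hm.pow 4)
  have hd4 : (X * v.2 ^ 4).natDegree = 4 * m + 1 := by
    rw [natDegree_mul X_ne_zero (pow_ne_zero 4 hm.ne_zero), natDegree_X, hm.natDegree_pow, hd]
    ring
  have hlt : (v.1 ^ 4).degree < (X * v.2 ^ 4).degree := by
    rw [degree_eq_natDegree h4.ne_zero, hd4]
    by_cases h0 : v.1 = 0
    · rw [h0, zero_pow (by norm_num), degree_zero]
      exact WithBot.bot_lt_coe _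
    · rw [degree_eq_natDegree h0] at hx
      have hx' : v.1.natDegree < m + 1 := by exact_mod_cast hx
      rw [degree_eq_natDegree (pow_ne_zero 4 h0), natDegree_pow]
      have : 4 * v.1.natDegree < 4 * m + 1 := by omega
      exact_mod_cast this
  unfold F
  refine ⟨h4.add_of_right hlt, ?_⟩
  rw [natDegree_add_eq_right_of_degree_lt hlt, hd4]

theorem W_refl (href : S_ref) (η : ℝ) (h : K[X] → ℕ → ℝ[X]) (hR : HypR η h) (G F₀ : K[X])
    (hG : G.Monic) (hF : F₀.Monic) (hsq : Squarefree F₀) (M : ℕ)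
    (hM : 4 * G.natDegree + F₀.natDegree = M) (k : ℕ) :
    (k ≤ M → (W h (G ^ 2 * F₀)).coeff (M - k) =
      ((mob F₀ : ℝ) * η ^ G.natDegree) * (W h (G ^ 2 * F₀)).coeff k) ∧
    (M < k → (W h (G ^ 2 * F₀)).coeff k = 0) := by
  obtain ⟨h1, h2⟩ := href K η h hR G F₀ hG hF hsq
  rw [hM] at h1 h2
  constructor
  · intro hk
    have h3 := congrArg (fun f : ℝ[X] => f.coeff k) h2
    simp only [coeff_reflect, coeff_C_mul] at h3
    rw [revAt_le hk] at h3
    exact h3
  · intro hk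
    exact coeff_eq_zero_of_natDegree_lt (lt_of_le_of_lt h1 hk)

theorem pow_split (κ N j : ℕ) (hj : j ≤ N) :
    ((-1 : ℝ) ^ (κ * (N - j))) * ((-1 : ℝ) ^ κ) ^ j = ((-1 : ℝ) ^ κ) ^ N := by
  rw [pow_mul, ← pow_add, Nat.sub_add_cancel hj]

theorem GII_refl (href : S_ref) (hpar : S_par) [CharP K 2] (κ : ℕ) (hκ : Fintype.card K = 2 ^ κ)
    (h : K[X] → ℕ → ℝ[X]) (hR : HypR ((-1) ^ κ) h) (N k : ℕ) :
    (k ≤ 4 * N → GII h N (4 * N - k) = ((-1 : ℝ) ^ κ) ^ N * GII h N k) ∧
    (4 * N < k → GII h N k = 0) := by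
  have key : ∀ j ∈ Finset.range (N + 1), ∀ G ∈ mon K j, ∀ v ∈ cII K (N - j),
      (k ≤ 4 * N → (W h (G ^ 2 * F v)).coeff (4 * N - k) =
        ((-1 : ℝ) ^ κ) ^ N * (W h (G ^ 2 * F v)).coeff k) ∧
      (4 * N < k → (W h (G ^ 2 * F v)).coeff k = 0) := by
    intro j hj G hG v hv
    rw [Finset.mem_range] at hj
    rw [mem_mon] at hG
    unfold cII at hv
    rw [Finset.mem_filter, Finset.mem_product] at hv
    obtain ⟨⟨hv1, hv2⟩, hcop⟩ := hv
    obtain ⟨hF, hFd⟩ := F_cII (N - j) v hv1 hv2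
    obtain ⟨hsq, hmob⟩ := (hpar K κ hκ (N - j) v hcop).2 hv1 hv2
    have := W_refl href ((-1) ^ κ) h hR G (F v) hG.1 hF hsq (4 * N)
      (by rw [hG.2, hFd]; omega) k
    refine ⟨fun hk => ?_, this.2⟩
    rw [this.1 hk, hmob, hG.2]
    push_cast
    rw [pow_split κ N j (by omega)]
  unfold GII
  constructor
  · intro hk
    rw [Finset.mul_sum]
    refine Finset.sum_congr rfl fun j hj => ?_
    rw [Finset.mul_sum]
    refine Finset.sum_congr rfl fun G hG => ?_
    rw [Finset.mul_sum]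
    exact Finset.sum_congr rfl fun v hv => (key j hj G hG v hv).1 hk
  · intro hk
    refine Finset.sum_eq_zero fun j hj => Finset.sum_eq_zero fun G hG =>
      Finset.sum_eq_zero fun v hv => (key j hj G hG v hv).2 hk

theorem GI_refl (href : S_ref) (hpar : S_par) [CharP K 2] (κ : ℕ) (hκ : Fintype.card K = 2 ^ κ)
    (h : K[X] → ℕ → ℝ[X]) (hR : HypR ((-1) ^ κ) h) (N k : ℕ) :
    (k ≤ 4 * N + 1 → GI h N (4 * N + 1 - k) = (-((-1 : ℝ) ^ κ) ^ N) * GI h N k) ∧
    (4 * N + 1 < k → GI h N k = 0) := by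
  have key : ∀ j ∈ Finset.range (N + 1), ∀ G ∈ mon K j, ∀ v ∈ cI K (N - j),
      (k ≤ 4 * N + 1 → (W h (G ^ 2 * F v)).coeff (4 * N + 1 - k) =
        (-((-1 : ℝ) ^ κ) ^ N) * (W h (G ^ 2 * F v)).coeff k) ∧
      (4 * N + 1 < k → (W h (G ^ 2 * F v)).coeff k = 0) := by
    intro j hj G hG v hv
    rw [Finset.mem_range] at hj
    rw [mem_mon] at hG
    unfold cI at hv
    rw [Finset.mem_filter, Finset.mem_product] at hv
    obtain ⟨⟨hv1, hv2⟩, hcop⟩ := hv
    obtain ⟨hF, hFd⟩ := F_cI (N - j) v hv1 hv2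
    obtain ⟨hsq, hmob⟩ := (hpar K κ hκ (N - j) v hcop).1 hv1 hv2
    have := W_refl href ((-1) ^ κ) h hR G (F v) hG.1 hF hsq (4 * N + 1)
      (by rw [hG.2, hFd]; omega) k
    refine ⟨fun hk => ?_, this.2⟩
    rw [this.1 hk, hmob, hG.2]
    push_cast
    rw [neg_mul, pow_split κ N j (by omega)]
  unfold GI
  constructor
  · intro hk
    rw [Finset.mul_sum]
    refine Finset.sum_congr rfl fun j hj => ?_
    rw [Finset.mul_sum]
    refine Finset.sum_congr rfl fun G hG => ?_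
    rw [Finset.mul_sum]
    exact Finset.sum_congr rfl fun v hv => (key j hj G hG v hv).1 hk
  · intro hk
    refine Finset.sum_eq_zero fun j hj => Finset.sum_eq_zero fun G hG =>
      Finset.sum_eq_zero fun v hv => (key j hj G hG v hv).2 hk

theorem t_ga : S_ga := by
  intro href hpar K _ _ _ κ hκ h hR
  constructor
  · intro n e
    unfold gII
    by_cases hn : 0 ≤ n
    · obtain ⟨N, rfl⟩ : ∃ N : ℕ, n = N := ⟨n.toNat, (Int.toNat_of_nonneg hn).symm⟩
      rw [Int.toNat_natCast, zpow_natCast]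
      by_cases h1 : 0 ≤ (N : ℤ) + e
      · by_cases h2 : 0 ≤ (N : ℤ) + (2 * N - e)
        · rw [if_pos ⟨hn, h2⟩, if_pos ⟨hn, h1⟩]
          have h3 := (GII_refl href hpar κ hκ h hR N ((N : ℤ) + e).toNat).1 (by omega)
          have h4 : ((N : ℤ) + (2 * N - e)).toNat = 4 * N - ((N : ℤ) + e).toNat := by omega
          rw [h4, h3]
          ring
        · rw [if_neg (fun h => h2 h.2), if_pos ⟨hn, h1⟩]
          have h3 := (GII_refl href hpar κ hκ h hR N ((N : ℤ) + e).toNat).2 (by omega)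
          rw [h3, mul_zero, mul_zero]
      · by_cases h2 : 0 ≤ (N : ℤ) + (2 * N - e)
        · rw [if_pos ⟨hn, h2⟩, if_neg (fun h => h1 h.2), mul_zero]
          have h3 := (GII_refl href hpar κ hκ h hR N ((N : ℤ) + (2 * N - e)).toNat).2 (by omega)
          rw [h3, mul_zero]
        · rw [if_neg (fun h => h2 h.2), if_neg (fun h => h1 h.2), mul_zero]
    · rw [if_neg (fun h => hn h.1), if_neg (fun h => hn h.1), mul_zero]
  · intro n e
    unfold gI
    by_cases hn : 0 ≤ n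
    · obtain ⟨N, rfl⟩ : ∃ N : ℕ, n = N := ⟨n.toNat, (Int.toNat_of_nonneg hn).symm⟩
      rw [Int.toNat_natCast, zpow_natCast]
      by_cases h1 : 0 ≤ (N : ℤ) + e
      · by_cases h2 : 0 ≤ (N : ℤ) + (2 * N + 1 - e)
        · rw [if_pos ⟨hn, h2⟩, if_pos ⟨hn, h1⟩]
          have h3 := (GI_refl href hpar κ hκ h hR N ((N : ℤ) + e).toNat).1 (by omega)
          have h4 : ((N : ℤ) + (2 * N + 1 - e)).toNat = 4 * N + 1 - ((N : ℤ) + e).toNat := by omega
          rw [h4, h3]
          ring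
        · rw [if_neg (fun h => h2 h.2), if_pos ⟨hn, h1⟩]
          have h3 := (GI_refl href hpar κ hκ h hR N ((N : ℤ) + e).toNat).2 (by omega)
          rw [h3, mul_zero, mul_zero, neg_zero]
      · by_cases h2 : 0 ≤ (N : ℤ) + (2 * N + 1 - e)
        · rw [if_pos ⟨hn, h2⟩, if_neg (fun h => h1 h.2), mul_zero, neg_zero]
          have h3 := (GI_refl href hpar κ hκ h hR N ((N : ℤ) + (2 * N + 1 - e)).toNat).2 (by omega)
          rw [h3, mul_zero]
        · rw [if_neg (fun h => h2 h.2), if_neg (fun h => h1 h.2), mul_zero, neg_zero]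
    · rw [if_neg (fun h => hn h.1), if_neg (fun h => hn h.1), mul_zero, neg_zero]

end Pool.Agent.H350.EX
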